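import Pool.Agent.Helper70.EL.C1
import Pool.Agent.Helper88.GX.C2a
import Pool.Agent.Helper67.GX.Count
import Pool.Agent.Helper77.GX.Defs
import Pool.Agent.Helper81.MT.Tw1

/-!
# The gap for `PSL_m(2)`
-/

set_option autoImplicit false

open scoped BigOperators
open Matrix Matrix.SpecialLinearGroup Pool.Agent.Helper81.OT Pool.Agent.Helper70.EL
open Pool.Agent.Helper88.GX (trans_tuple)

namespace Pool.Agent.Helper6.GX

variable {n : Type} [Fintype n] [DecidableEq n] {F : Type} [Field F]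

theorem mv_mul (g h : SpecialLinearGroup n F) (v : n → F) : (g * h).1 *ᵥ v = g.1 *ᵥ (h.1 *ᵥ v) := by
  rw [mulVec_mulVec]
  rfl

theorem mv_one (v : n → F) : (1 : SpecialLinearGroup n F).1 *ᵥ v = v := one_mulVec v

theorem mv_inv (g : SpecialLinearGroup n F) (v : n → F) : (g⁻¹).1 *ᵥ (g.1 *ᵥ v) = v := by
  rw [← mv_mul, inv_mul_cancel, mv_one]

theorem mv_inv' (g : SpecialLinearGroup n F) (v : n → F) : g.1 *ᵥ ((g⁻¹).1 *ᵥ v) = v := by
  rw [← mv_mul, mul_inv_cancel, mv_one]

/-- The vectors which `x` moves by a multiple of `v`. -/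
def Kx (x : SpecialLinearGroup n F) (v : n → F) : Submodule F (n → F) :=
  (Submodule.span F {v}).comap (x.1.mulVecLin - LinearMap.id)

theorem mem_Kx {x : SpecialLinearGroup n F} {v w : n → F} :
    w ∈ Kx x v ↔ ∃ c : F, x.1 *ᵥ w = w + c • v := by
  rw [Kx, Submodule.mem_comap, Submodule.mem_span_singleton]
  refine exists_congr fun c => ?_
  rw [LinearMap.sub_apply, mulVecLin_apply, LinearMap.id_apply, eq_sub_iff_add_eq, add_comm, eq_comm]

/-- `x` fixes `v`, and it fixes at most one nonzero vector modulo `v`. -/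
def Nice (x : SpecialLinearGroup n F) (v : n → F) : Prop :=
  v ≠ 0 ∧ x.1 *ᵥ v = v ∧ Module.finrank F (Kx x v) ≤ 2

theorem card_sub [Finite F] (hF : Nat.card F = 2) (W : Submodule F (n → F)) :
    Nat.card W = 2 ^ Module.finrank F W := by
  rw [Module.natCard_eq_pow_finrank (K := F), hF]

/-- the multiplicity -/
theorem nice_le [Finite F] (hF : Nat.card F = 2) (x : SpecialLinearGroup n F) :
    {v | Nice x v}.ncard ≤ 3 := by
  by_cases h : ∃ v, Nice x v
  · obtain ⟨v, hv⟩ := h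
    obtain ⟨W, hW⟩ : ∃ W : Submodule F (n → F), W = LinearMap.ker (x.1.mulVecLin - LinearMap.id) :=
      ⟨_, rfl⟩
    have hmem : ∀ w, w ∈ W ↔ x.1 *ᵥ w = w := by
      intro w
      rw [hW, LinearMap.mem_ker, LinearMap.sub_apply, mulVecLin_apply, LinearMap.id_apply, sub_eq_zero]
    have h1 : W ≤ Kx x v := fun w hw => mem_Kx.2 ⟨0, by rw [(hmem w).1 hw, zero_smul, add_zero]⟩
    have h2 : Module.finrank F W ≤ 2 := (Submodule.finrank_mono h1).trans hv.2.2
    have h3 : (W : Set (n → F)).ncard ≤ 4 := by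
      have h4 : (W : Set (n → F)).ncard = Nat.card W := rfl
      rw [h4, card_sub hF]
      calc 2 ^ Module.finrank F W ≤ 2 ^ 2 := Nat.pow_le_pow_right (by norm_num) h2
        _ = 4 := by norm_num
    have h4 : {v | Nice x v} ⊆ (W : Set (n → F)) \ {0} := fun w hw => ⟨(hmem w).2 hw.2.1, hw.1⟩
    have h5 := Set.ncard_le_ncard h4 (Set.toFinite _)
    rw [Set.ncard_sdiff_singleton_of_mem W.zero_mem] at h5
    omega
  · have h1 : {v | Nice x v} = ∅ := by
      ext v
      simp only [Set.mem_ofPred_eq, Set.mem_empty_iff_false, iff_false]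
      exact fun hv => h ⟨v, hv⟩
    rw [h1, Set.ncard_empty]
    omega

theorem kx_conj (g x : SpecialLinearGroup n F) (v : n → F) :
    Module.finrank F (Kx (g * x * g⁻¹) (g.1 *ᵥ v)) = Module.finrank F (Kx x v) := by
  have h1 : Kx (g * x * g⁻¹) (g.1 *ᵥ v) = (Kx x v).map (Matrix.SpecialLinearGroup.toLin' g).toLinearMap := by
    ext w
    rw [mem_Kx, Submodule.mem_map]
    constructor
    · rintro ⟨c, hc⟩
      refine ⟨(g⁻¹).1 *ᵥ w, mem_Kx.2 ⟨c, ?_⟩, mv_inv' g w⟩
      rw [mv_mul, mv_mul] at hc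
      have h2 : (g⁻¹).1 *ᵥ (g.1 *ᵥ (x.1 *ᵥ ((g⁻¹).1 *ᵥ w))) = (g⁻¹).1 *ᵥ (w + c • g.1 *ᵥ v) :=
        congrArg (fun u => (g⁻¹).1 *ᵥ u) hc
      rw [mv_inv, mulVec_add, mulVec_smul, mv_inv] at h2
      exact h2
    · rintro ⟨u, hu, rfl⟩
      obtain ⟨c, hc⟩ := mem_Kx.1 hu
      refine ⟨c, ?_⟩
      have h2 : (Matrix.SpecialLinearGroup.toLin' g).toLinearMap u = g.1 *ᵥ u := rfl
      rw [h2, mv_mul, mv_mul, mv_inv, hc, mulVec_add, mulVec_smul]
  rw [h1]
  exact LinearEquiv.finrank_map_eq _ _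

theorem nice_conj {g x : SpecialLinearGroup n F} {v : n → F} (h : Nice x v) :
    Nice (g * x * g⁻¹) (g.1 *ᵥ v) := by
  refine ⟨fun h0 => h.1 ?_, ?_, ?_⟩
  · rw [← mv_inv g v, h0, mulVec_zero]
  · rw [mv_mul, mv_mul, mv_inv, h.2.1]
  · rw [kx_conj]
    exact h.2.2

/-- the nonzero vectors -/
def I1 (n F : Type) [Field F] : Type := {v : n → F // v ≠ 0}

/-- the independent pairs -/
def I2 (n F : Type) [Field F] : Type := {v : Fin 2 → n → F // LinearIndependent F v}

instance (n F : Type) [Finite n] [Field F] [Finite F] : Finite (I1 n F) :=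
  inferInstanceAs (Finite {v : n → F // v ≠ 0})

instance (n F : Type) [Finite n] [Field F] [Finite F] : Finite (I2 n F) :=
  inferInstanceAs (Finite {v : Fin 2 → n → F // LinearIndependent F v})

instance act1 : MulAction (SpecialLinearGroup n F) (I1 n F) where
  smul g v := ⟨g.1 *ᵥ v.1, fun h => v.2 (by rw [← mv_inv g v.1, h, mulVec_zero])⟩
  one_smul v := Subtype.ext (mv_one v.1)
  mul_smul g h v := Subtype.ext (mv_mul g h v.1)

theorem smul1 (g : SpecialLinearGroup n F) (v : I1 n F) : (g • v).1 = g.1 *ᵥ v.1 := rfl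

theorem indep_mv (g : SpecialLinearGroup n F) {k : ℕ} {v : Fin k → n → F}
    (hv : LinearIndependent F v) : LinearIndependent F (fun i => g.1 *ᵥ v i) :=
  hv.map' (Matrix.SpecialLinearGroup.toLin' g).toLinearMap (LinearEquiv.ker _)

instance act2 : MulAction (SpecialLinearGroup n F) (I2 n F) where
  smul g v := ⟨fun i => g.1 *ᵥ v.1 i, indep_mv g v.2⟩
  one_smul v := Subtype.ext (funext fun i => mv_one (v.1 i))
  mul_smul g h v := Subtype.ext (funext fun i => mv_mul g h (v.1 i))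

theorem smul2 (g : SpecialLinearGroup n F) (v : I2 n F) (i : Fin 2) :
    (g • v).1 i = g.1 *ᵥ v.1 i := rfl

theorem trans1 [Finite F] (hn : 1 < Fintype.card n) {v w : n → F} (hv : v ≠ 0) (hw : w ≠ 0) :
    ∃ g : SpecialLinearGroup n F, g.1 *ᵥ v = w := by
  obtain ⟨g, hg⟩ := trans_tuple (n := n) (F := F) 1 (Or.inl hn) (fun _ => v) (fun _ => w)
    (linearIndependent_unique_iff.2 hv) (linearIndependent_unique_iff.2 hw)
  exact ⟨g, hg 0⟩

theorem pre1 [Finite F] (hn : 1 < Fintype.card n) :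
    MulAction.IsPretransitive (SpecialLinearGroup n F) (I1 n F) :=
  ⟨fun v w => by
    obtain ⟨g, hg⟩ := trans1 hn v.2 w.2
    exact ⟨g, Subtype.ext hg⟩⟩

theorem pre2 [Finite F] (hn : 2 < Fintype.card n) :
    MulAction.IsPretransitive (SpecialLinearGroup n F) (I2 n F) :=
  ⟨fun v w => by
    obtain ⟨g, hg⟩ := trans_tuple (n := n) (F := F) 2 (Or.inl hn) v.1 w.1 v.2 w.2
    exact ⟨g, Subtype.ext (funext hg)⟩⟩

/-- the pairs `x v = v ≠ 0` -/
theorem card_fix [Finite F] (hn : 1 < Fintype.card n) :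
    Nat.card {q : SpecialLinearGroup n F × (n → F) // q.2 ≠ 0 ∧ q.1.1 *ᵥ q.2 = q.2} =
      Nat.card (SpecialLinearGroup n F) := by
  have := pre1 (F := F) hn
  have hne : Nonempty (I1 n F) := by
    obtain ⟨i⟩ : Nonempty n := Fintype.card_pos_iff.1 (by omega)
    exact ⟨⟨Pi.single i 1, fun h => one_ne_zero (α := F) (by
      have h1 := congrFun h i
      rwa [Pi.single_eq_same] at h1)⟩⟩
  have h1 := Pool.Agent.Helper67.GX.count_trans (G := SpecialLinearGroup n F) (I := I1 n F)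
    (fun v => {v}) 1 (fun v => Set.ncard_singleton v)
  rw [one_mul] at h1
  rw [← h1]
  exact Nat.card_congr
    { toFun := fun q => ⟨(q.1.1, ⟨q.1.2, q.2.1⟩), Subtype.ext q.2.2⟩
      invFun := fun q => ⟨(q.1.1, q.1.2.1), q.1.2.2, congrArg Subtype.val (q.2 : q.1.1 • q.1.2 = q.1.2)⟩
      left_inv := fun q => rfl
      right_inv := fun q => rfl }

/-- the pairs `x v = v ≠ 0` which are not nice -/
theorem card_bad [Finite F] (hF : Nat.card F = 2) (hn : 2 < Fintype.card n) :
    3 * Nat.card {q : SpecialLinearGroup n F × (n → F) //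
      q.2 ≠ 0 ∧ q.1.1 *ᵥ q.2 = q.2 ∧ 2 < Module.finrank F (Kx q.1 q.2)} ≤
      Nat.card (SpecialLinearGroup n F) := by
  classical
  have := pre2 (F := F) hn
  obtain ⟨P, hP⟩ : ∃ P : Set (SpecialLinearGroup n F × (n → F)), P = {q |
      q.2 ≠ 0 ∧ q.1.1 *ᵥ q.2 = q.2 ∧ 2 < Module.finrank F (Kx q.1 q.2)} := ⟨_, rfl⟩
  have hT : ∀ p : I2 n F,
      {p' : I2 n F | p'.1 1 = p.1 1 ∧ ∃ c : F, p'.1 0 = p.1 0 + c • p.1 1}.ncard = 2 := by
    intro p
    have hp := linearIndependent_fin2.1 p.2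
    obtain ⟨f, hf0, hf1⟩ : ∃ f : F → I2 n F, (∀ c, (f c).1 0 = p.1 0 + c • p.1 1) ∧
        ∀ c, (f c).1 1 = p.1 1 :=
      ⟨fun c => ⟨![p.1 0 + c • p.1 1, p.1 1], linearIndependent_fin2.2 ⟨hp.1, fun a ha => by
        refine hp.2 (a - c) ?_
        have h1 : a • p.1 1 = p.1 0 + c • p.1 1 := ha
        rw [sub_smul, h1, add_sub_cancel_right]⟩⟩, fun c => rfl, fun c => rfl⟩
    have hinj : Function.Injective f := by
      intro c c' hcc
      have h3 : p.1 0 + c • p.1 1 = p.1 0 + c' • p.1 1 := by rw [← hf0, ← hf0, hcc]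
      have h4 : (c - c') • p.1 1 = 0 := by
        rw [sub_smul, sub_eq_zero]
        exact add_left_cancel h3
      rcases smul_eq_zero.1 h4 with h5 | h5
      · exact sub_eq_zero.1 h5
      · exact absurd h5 hp.1
    have hr : {p' : I2 n F | p'.1 1 = p.1 1 ∧ ∃ c : F, p'.1 0 = p.1 0 + c • p.1 1} = Set.range f := by
      ext p'
      constructor
      · rintro ⟨h3, c, h4⟩
        refine ⟨c, Subtype.ext (funext fun i => ?_)⟩
        fin_cases i
        · exact (hf0 c).trans h4.symm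
        · exact (hf1 c).trans h3.symm
      · rintro ⟨c, rfl⟩
        exact ⟨hf1 c, c, hf0 c⟩
    rw [hr, ← Nat.card_coe_set_eq, Nat.card_congr (Equiv.ofInjective f hinj).symm, hF]
  have h1 := Pool.Agent.Helper67.GX.count_trans_le (G := SpecialLinearGroup n F) (I := I2 n F)
    (fun p => {p' : I2 n F | p'.1 1 = p.1 1 ∧ ∃ c : F, p'.1 0 = p.1 0 + c • p.1 1}) 2 hT
  have h2 : 6 * Nat.card P ≤ Nat.card (Σ q : P, {w : n → F // w ∈ Kx q.1.1 q.1.2 ∧
      w ∉ Submodule.span F {q.1.2}}) := by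
    have : Fintype P := Fintype.ofFinite P
    rw [Nat.card_sigma, Nat.card_eq_fintype_card, mul_comm, ← smul_eq_mul, ← Finset.card_univ,
      ← Finset.sum_const]
    refine Finset.sum_le_sum fun q _ => ?_
    have hq : q.1 ∈ {q : SpecialLinearGroup n F × (n → F) | q.2 ≠ 0 ∧ q.1.1 *ᵥ q.2 = q.2 ∧
      2 < Module.finrank F (Kx q.1 q.2)} := hP ▸ q.2
    have h3 : Submodule.span F {q.1.2} ≤ Kx q.1.1 q.1.2 := by
      rw [Submodule.span_singleton_le_iff_mem, mem_Kx]
      exact ⟨0, by rw [hq.2.1, zero_smul, add_zero]⟩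
    have h4 : ((Kx q.1.1 q.1.2 : Set (n → F)) \ (Submodule.span F {q.1.2} : Set (n → F))).ncard =
      (Kx q.1.1 q.1.2 : Set (n → F)).ncard - (Submodule.span F {q.1.2} : Set (n → F)).ncard :=
      Set.ncard_sdiff h3 (Set.toFinite _)
    have h5 : (Submodule.span F {q.1.2} : Set (n → F)).ncard = 2 := by
      have h6 : (Submodule.span F {q.1.2} : Set (n → F)).ncard = Nat.card (Submodule.span F {q.1.2}) := rfl
      rw [h6, card_sub hF, finrank_span_singleton hq.1, pow_one]
    have h6 : 8 ≤ (Kx q.1.1 q.1.2 : Set (n → F)).ncard := by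
      have h7 : (Kx q.1.1 q.1.2 : Set (n → F)).ncard = Nat.card (Kx q.1.1 q.1.2) := rfl
      rw [h7, card_sub hF]
      calc 8 = 2 ^ 3 := by norm_num
        _ ≤ 2 ^ Module.finrank F (Kx q.1.1 q.1.2) := Nat.pow_le_pow_right (by norm_num) hq.2.2
    have h7 : Nat.card {w : n → F // w ∈ Kx q.1.1 q.1.2 ∧ w ∉ Submodule.span F {q.1.2}} =
      ((Kx q.1.1 q.1.2 : Set (n → F)) \ (Submodule.span F {q.1.2} : Set (n → F))).ncard := rfl
    rw [h7, h4, h5]
    omega
  have h3 : Nat.card (Σ q : P, {w : n → F // w ∈ Kx q.1.1 q.1.2 ∧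
      w ∉ Submodule.span F {q.1.2}}) ≤ Nat.card {q : SpecialLinearGroup n F × I2 n F //
        q.1 • q.2 ∈ {p' : I2 n F | p'.1 1 = q.2.1 1 ∧ ∃ c : F, p'.1 0 = q.2.1 0 + c • q.2.1 1}} := by
    have hq : ∀ q : P, q.1.2 ≠ 0 ∧ q.1.1.1 *ᵥ q.1.2 = q.1.2 ∧
        2 < Module.finrank F (Kx q.1.1 q.1.2) := fun q => by
      have h4 : q.1 ∈ {q : SpecialLinearGroup n F × (n → F) | q.2 ≠ 0 ∧ q.1.1 *ᵥ q.2 = q.2 ∧
        2 < Module.finrank F (Kx q.1 q.2)} := hP ▸ q.2
      exact h4
    refine Nat.card_le_card_of_injective (fun r => ⟨(r.1.1.1, ⟨![r.2.1, r.1.1.2],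
      linearIndependent_fin2.2 ⟨(hq r.1).1, fun a ha => r.2.2.2 ?_⟩⟩), ?_⟩) ?_
    · exact Submodule.mem_span_singleton.2 ⟨a, ha⟩
    · obtain ⟨c, hc⟩ := mem_Kx.1 r.2.2.1
      exact ⟨(hq r.1).2.1, c, hc⟩
    · rintro ⟨⟨⟨x, v⟩, h4⟩, ⟨w, h5⟩⟩ ⟨⟨⟨x', v'⟩, h4'⟩, ⟨w', h5'⟩⟩ hr
      have h6 := congrArg Subtype.val hr
      have h7 := congrArg Prod.fst h6
      have h8 := congrArg Subtype.val (congrArg Prod.snd h6)
      have h9 : w = w' := congrFun h8 0
      have h10 : v = v' := congrFun h8 1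
      have h11 : x = x' := h7
      subst h9 h10 h11
      rfl
  have h4 : Nat.card P = Nat.card {q : SpecialLinearGroup n F × (n → F) //
      q.2 ≠ 0 ∧ q.1.1 *ᵥ q.2 = q.2 ∧ 2 < Module.finrank F (Kx q.1 q.2)} := by rw [hP]; rfl
  rw [← h4]
  omega

/-- nice pairs and bad pairs -/
theorem card_nice [Finite F] (hF : Nat.card F = 2) (hn : 2 < Fintype.card n) :
    2 * Nat.card (SpecialLinearGroup n F) ≤
      3 * Nat.card {q : SpecialLinearGroup n F × (n → F) // Nice q.1 q.2} := by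
  classical
  have h1 := card_fix (F := F) (n := n) (by omega)
  have h2 := card_bad (F := F) (n := n) hF hn
  have h3 : Nat.card {q : SpecialLinearGroup n F × (n → F) // q.2 ≠ 0 ∧ q.1.1 *ᵥ q.2 = q.2} ≤
      Nat.card {q : SpecialLinearGroup n F × (n → F) // Nice q.1 q.2} +
        Nat.card {q : SpecialLinearGroup n F × (n → F) //
          q.2 ≠ 0 ∧ q.1.1 *ᵥ q.2 = q.2 ∧ 2 < Module.finrank F (Kx q.1 q.2)} := by
    rw [← Nat.card_sum]
    refine Nat.card_le_card_of_injective (fun q =>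
      if h : Module.finrank F (Kx q.1.1 q.1.2) ≤ 2 then
          Sum.inl ⟨q.1, q.2.1, q.2.2, h⟩ else Sum.inr ⟨q.1, q.2.1, q.2.2, not_le.1 h⟩)
      (Function.LeftInverse.injective (g := fun q => Sum.elim (fun q => ⟨q.1, q.2.1, q.2.2.1⟩)
          (fun q => ⟨q.1, q.2.1, q.2.2.1⟩) q) fun q => ?_)
    by_cases h : Module.finrank F (Kx q.1.1 q.1.2) ≤ 2
    · simp only [dif_pos h, Sum.elim_inl]
    · simp only [dif_neg h, Sum.elim_inr]
  omega

open Pool.Agent.Helper70.GX

theorem radv_mv (v w : n → F) (φ : Multiplicative (LinearMap.ker (dot v))) :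
    (radv v φ).1 *ᵥ w = w + ((φ.toAdd : n → F) ⬝ᵥ w) • v := by
  rw [radv_coe, add_mulVec, one_mulVec, vecMulVec_mulVec]
  simp

theorem nice_mul {x : SpecialLinearGroup n F} {v : n → F} (h : Nice x v)
    (φ : Multiplicative (LinearMap.ker (dot v))) : Nice (x * radv v φ) v := by
  have hφ : (φ.toAdd : n → F) ⬝ᵥ v = 0 := φ.toAdd.2
  refine ⟨h.1, ?_, ?_⟩
  · rw [mv_mul, radv_mv, hφ, zero_smul, add_zero, h.2.1]
  · have h1 : Kx (x * radv v φ) v = Kx x v := by
      ext w
      rw [mem_Kx, mem_Kx]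
      constructor
      · rintro ⟨c, hc⟩
        rw [mv_mul, radv_mv, mulVec_add, mulVec_smul, h.2.1] at hc
        refine ⟨c - (φ.toAdd : n → F) ⬝ᵥ w, ?_⟩
        rw [sub_smul, ← add_sub_assoc, ← hc, add_sub_cancel_right]
      · rintro ⟨c, hc⟩
        refine ⟨c + (φ.toAdd : n → F) ⬝ᵥ w, ?_⟩
        rw [mv_mul, radv_mv, mulVec_add, mulVec_smul, h.2.1, hc, add_smul, add_assoc]
    rw [h1]
    exact h.2.2

/-- the average over a coset of the radical -/
theorem coset_ave [Finite F] {θ : SpecialLinearGroup n F → ℂ} (h : MP θ)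
    (hn : 3 ≤ Fintype.card n ∨ (Fintype.card n = 2 ∧ ringChar F = 2)) {k : ℕ}
    (hk : ∀ (i j : n) (hij : i ≠ j) (c : F), c ≠ 0 →
      θ 1 - θ (transvection hij c) = k * (Nat.card F : ℂ) ^ (Fintype.card n - 1))
    {x : SpecialLinearGroup n F} {v : n → F} (hv : v ≠ 0) (hx : x.1 *ᵥ v = v) :
    ‖ave (fun φ : Multiplicative (LinearMap.ker (dot v)) => θ (x * radv v φ))‖ ≤
      (θ 1).re - k * ((Nat.card F : ℝ) ^ (Fintype.card n - 1) - 1) := by
  classical
  obtain ⟨i, j, hij⟩ := Fintype.exists_pair_of_one_lt_card (by omega : 1 < Fintype.card n)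
  have hfin : Finite (n → F) := inferInstance
  have hfin' : Finite (Multiplicative (LinearMap.ker (dot v))) := inferInstance
  have := Fintype.ofFinite (Multiplicative (LinearMap.ker (dot v)))
  have hYs : ∀ y ∈ (radv v).range, x * y * x⁻¹ ∈ (radv v).range := by
    rintro y ⟨φ, rfl⟩
    obtain ⟨ψ, hψ⟩ := norm_radv (a := 1) (by rw [hx, one_smul]) φ
    rw [hψ]
    exact ⟨ψ, rfl⟩
  have h1 := coset_le h (radv v).range x hYs 1
  have h2 : ave (fun y : (radv v).range => θ (x * y) * (((1 : (radv v).range →* ℂˣ) y : ℂˣ) : ℂ)) =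
      ave (fun φ : Multiplicative (LinearMap.ker (dot v)) => θ (x * radv v φ)) := by
    have h4 := ave_comp_surj (radv v).rangeRestrict (radv v).rangeRestrict_surjective
      (fun y : (radv v).range => θ (x * y) * (((1 : (radv v).range →* ℂˣ) y : ℂˣ) : ℂ))
    rw [← h4]
    congr 1
    funext φ
    rw [MonoidHom.one_apply, Units.val_one, mul_one]
    rfl
  have h3 : ave (fun y : (radv v).range => θ y * (((1 : (radv v).range →* ℂˣ) y : ℂˣ) : ℂ)) =
      ave (fun φ : Multiplicative (LinearMap.ker (dot v)) => θ (radv v φ)) := by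
    have h4 := ave_comp_surj (radv v).rangeRestrict (radv v).rangeRestrict_surjective
      (fun y : (radv v).range => θ y * (((1 : (radv v).range →* ℂˣ) y : ℂˣ) : ℂ))
    rw [← h4]
    congr 1
    funext φ
    rw [MonoidHom.one_apply, Units.val_one, mul_one]
    rfl
  rw [h2, h3] at h1
  refine h1.trans (le_of_eq ?_)
  have hcard := card_radv v hv
  set Q : ℕ := Nat.card F ^ (Fintype.card n - 1) with hQ
  have hQ0 : (Q : ℂ) ≠ 0 := by
    rw [← hcard]
    exact_mod_cast Nat.card_pos.ne'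
  have hval : ∀ φ : Multiplicative (LinearMap.ker (dot v)), θ (radv v φ) =
      (θ 1 - k * Q) + if φ = 1 then (k * Q : ℂ) else 0 := by
    intro φ
    by_cases hφ : φ = 1
    · rw [if_pos hφ, hφ, map_one]
      ring
    · rw [if_neg hφ, add_zero]
      have h5 : (φ.toAdd : n → F) ≠ 0 := by
        intro h0
        apply hφ
        exact Multiplicative.toAdd.injective (Subtype.ext h0)
      have h6 : θ (radv v φ) = θ (transvection hij 1) :=
        tv_value h hn i j hij v (φ.toAdd : n → F) φ.toAdd.2 hv h5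
      have h7 := hk i j hij 1 one_ne_zero
      rw [h6, hQ]
      push_cast
      rw [← h7]
      ring
  have hsum : ave (fun φ : Multiplicative (LinearMap.ker (dot v)) => θ (radv v φ)) =
      θ 1 - k * (Q - 1) := by
    unfold ave
    rw [finsum_eq_sum_of_fintype, Finset.sum_congr rfl fun φ _ => hval φ, Finset.sum_add_distrib,
      Finset.sum_const, Finset.sum_ite_eq' Finset.univ, if_pos (Finset.mem_univ _),
      Finset.card_univ, ← Nat.card_eq_fintype_card, hcard, nsmul_eq_mul]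
    field_simp
    ring
  rw [hsum]
  have h8 : (θ 1 - k * ((Q : ℂ) - 1)) = θ 1 - ((k * ((Q : ℝ) - 1) : ℝ) : ℂ) := by
    push_cast
    ring
  rw [h8, Complex.sub_re, Complex.ofReal_re, hQ]
  push_cast
  ring

/-- **(C6)** the gap for two elements -/
theorem two_gap [Finite F] {θ : SpecialLinearGroup n F → ℂ} (h : MP θ) (hF : Nat.card F = 2)
    (hn : 3 ≤ Fintype.card n) {k : ℕ}
    (hk : ∀ (i j : n) (hij : i ≠ j) (c : F), c ≠ 0 →
      θ 1 - θ (transvection hij c) = k * (Nat.card F : ℂ) ^ (Fintype.card n - 1)) :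
    9 * (ave θ).re ≤ 9 * (θ 1).re - 2 * k * ((2 : ℝ) ^ (Fintype.card n - 1) - 1) := by
  classical
  have : Fintype (SpecialLinearGroup n F) := Fintype.ofFinite _
  have : Fintype (n → F) := Fintype.ofFinite _
  set A : ℝ := k * ((2 : ℝ) ^ (Fintype.card n - 1) - 1) with hA
  have hA0 : 0 ≤ A := by
    have h1 : (1 : ℝ) ≤ 2 ^ (Fintype.card n - 1) := one_le_pow₀ (by norm_num)
    have h2 : (0 : ℝ) ≤ 2 ^ (Fintype.card n - 1) - 1 := by linarith
    positivity
  set g : SpecialLinearGroup n F → ℝ := fun x => (θ 1).re - (θ x).re with hg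
  have hg0 : ∀ x, 0 ≤ g x := fun x =>
    sub_nonneg.2 ((Complex.re_le_norm _).trans (h.norm_le x))
  -- the sum over the elements which are nice for `v`
  have hL : ∀ v : n → F, A * ((Finset.univ.filter fun x => Nice x v).card : ℝ) ≤
      ∑ x ∈ Finset.univ.filter (fun x => Nice x v), g x := by
    intro v
    by_cases hv : v ≠ 0
    swap
    · have h1 : (Finset.univ.filter fun x : SpecialLinearGroup n F => Nice x v) = ∅ := by
        rw [Finset.filter_eq_empty_iff]
        intro x _ hx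
        exact hv hx.1
      rw [h1]
      simp
    have := Fintype.ofFinite (Multiplicative (LinearMap.ker (dot v)))
    set R : ℕ := Fintype.card (Multiplicative (LinearMap.ker (dot v))) with hR
    have hRpos : 0 < (R : ℝ) := by exact_mod_cast Fintype.card_pos
    have h1 : ∀ φ : Multiplicative (LinearMap.ker (dot v)),
        ∑ x ∈ Finset.univ.filter (fun x => Nice x v), g (x * radv v φ) =
          ∑ x ∈ Finset.univ.filter (fun x => Nice x v), g x := by
      intro φ
      refine Finset.sum_equiv (Equiv.mulRight (radv v φ)) (fun x => ?_) (fun x _ => rfl)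
      rw [Finset.mem_filter_univ, Finset.mem_filter_univ]
      refine ⟨fun hx => nice_mul hx φ, fun hx => ?_⟩
      have h2 := nice_mul hx φ⁻¹
      rw [map_inv] at h2
      simpa using h2
    have h2 : (R : ℝ) * ∑ x ∈ Finset.univ.filter (fun x => Nice x v), g x =
        ∑ x ∈ Finset.univ.filter (fun x => Nice x v), ∑ φ, g (x * radv v φ) := by
      rw [Finset.sum_comm, Finset.sum_congr rfl fun φ _ => h1 φ, Finset.sum_const, nsmul_eq_mul,
        Finset.card_univ]
    have h3 : ∀ x ∈ Finset.univ.filter (fun x => Nice x v), (R : ℝ) * A ≤ ∑ φ, g (x * radv v φ) := by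
      intro x hx
      rw [Finset.mem_filter_univ] at hx
      have h4 := coset_ave h (Or.inl hn) hk hv hx.2.1
      have h5 : (∑ φ, (θ (x * radv v φ)).re) ≤ R * ((θ 1).re - A) := by
        have h6 : ave (fun φ : Multiplicative (LinearMap.ker (dot v)) => θ (x * radv v φ)) =
            (∑ φ, θ (x * radv v φ)) / R := by
          unfold ave
          rw [finsum_eq_sum_of_fintype, Nat.card_eq_fintype_card]
        rw [h6, norm_div, Complex.norm_natCast, div_le_iff₀ hRpos, hF] at h4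
        push_cast at h4
        rw [← hA, mul_comm] at h4
        refine le_trans ?_ h4
        rw [← Complex.re_sum]
        exact Complex.re_le_norm _
      have h6 : ∑ φ, g (x * radv v φ) = R * (θ 1).re - ∑ φ, (θ (x * radv v φ)).re := by
        rw [hg, Finset.sum_sub_distrib, Finset.sum_const, nsmul_eq_mul, Finset.card_univ]
      rw [h6]
      nlinarith
    have h4 := Finset.sum_le_sum h3
    rw [Finset.sum_const, nsmul_eq_mul, ← h2] at h4
    have h5 : (R : ℝ) * (A * ((Finset.univ.filter fun x => Nice x v).card : ℝ)) ≤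
        R * ∑ x ∈ Finset.univ.filter (fun x => Nice x v), g x := by
      refine le_trans (le_of_eq ?_) h4
      ring
    exact le_of_mul_le_mul_left h5 hRpos
  -- double counting
  have hM : ∑ v : n → F, ∑ x ∈ Finset.univ.filter (fun x => Nice x v), g x ≤ 3 * ∑ x, g x := by
    have h1 : ∑ v : n → F, ∑ x ∈ Finset.univ.filter (fun x => Nice x v), g x =
        ∑ x, ((Finset.univ.filter fun v => Nice x v).card : ℝ) * g x := by
      simp_rw [Finset.sum_filter]
      rw [Finset.sum_comm]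
      refine Finset.sum_congr rfl fun x _ => ?_
      rw [← Finset.sum_filter, Finset.sum_const, nsmul_eq_mul]
    rw [h1, Finset.mul_sum]
    refine Finset.sum_le_sum fun x _ => mul_le_mul_of_nonneg_right ?_ (hg0 x)
    have h2 := nice_le hF x
    rw [Set.ncard_eq_toFinset_card'] at h2
    have h3 : (Finset.univ.filter fun v => Nice x v).card ≤ 3 := by
      refine le_trans (le_of_eq ?_) h2
      congr 1
      ext v
      simp
    exact_mod_cast h3
  have hN : (∑ v : n → F, ((Finset.univ.filter fun x => Nice x v).card : ℝ)) =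
      Nat.card {q : SpecialLinearGroup n F × (n → F) // Nice q.1 q.2} := by
    have h1 : Nat.card {q : SpecialLinearGroup n F × (n → F) // Nice q.1 q.2} =
        Nat.card (Σ v : n → F, {x : SpecialLinearGroup n F // Nice x v}) :=
      Nat.card_congr
        { toFun := fun q => ⟨q.1.2, ⟨q.1.1, q.2⟩⟩
          invFun := fun q => ⟨(q.2.1, q.1), q.2.2⟩
          left_inv := fun q => rfl
          right_inv := fun q => rfl }
    rw [h1, Nat.card_sigma]
    push_cast
    refine Finset.sum_congr rfl fun v _ => ?_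
    rw [Nat.card_eq_fintype_card, Fintype.card_subtype]
  have h1 := Finset.sum_le_sum fun (v : n → F) (_ : v ∈ Finset.univ) => hL v
  rw [← Finset.mul_sum, hN] at h1
  have h2 := h1.trans hM
  have h3 := card_nice (F := F) (n := n) hF (by omega)
  set G₀ : ℕ := Nat.card (SpecialLinearGroup n F) with hG₀
  have hGpos : 0 < (G₀ : ℝ) := by
    rw [hG₀]
    exact_mod_cast Nat.card_pos
  have h4 : (2 : ℝ) * G₀ ≤ 3 * Nat.card {q : SpecialLinearGroup n F × (n → F) // Nice q.1 q.2} := by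
    exact_mod_cast h3
  have h5 : ∑ x, g x = G₀ * ((θ 1).re - (ave θ).re) := by
    have h6 : (ave θ).re = (∑ x, (θ x).re) / G₀ := by
      unfold ave
      rw [finsum_eq_sum_of_fintype, ← hG₀]
      have h7 : (∑ x, θ x) / (G₀ : ℂ) = (∑ x, θ x) / ((G₀ : ℝ) : ℂ) := by push_cast; rfl
      rw [h7, Complex.div_ofReal_re, Complex.re_sum]
    rw [h6, hg, Finset.sum_sub_distrib, Finset.sum_const, nsmul_eq_mul, Finset.card_univ, mul_sub,
      mul_div_cancel₀ _ hGpos.ne', ← Nat.card_eq_fintype_card]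
  rw [h5] at h2
  have h6 : 2 * (G₀ : ℝ) * A ≤ 9 * (G₀ * ((θ 1).re - (ave θ).re)) := by
    nlinarith
  have h7 : (G₀ : ℝ) * (2 * A) ≤ G₀ * (9 * ((θ 1).re - (ave θ).re)) := by
    refine le_trans (le_of_eq ?_) (h6.trans (le_of_eq ?_)) <;> ring
  have h8 := le_of_mul_le_mul_left h7 hGpos
  rw [hA] at h8
  linarith

end Pool.Agent.Helper6.GX
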